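import Mathlib

/-!
Degree functions of finite simple graphs, the two-switch lemma and the criterion
for forcible connectedness when two entries are equal to one.
-/

namespace Pool.Agent.H88.FC

open SimpleGraph

/-- The degree of a vertex: the number of its neighbours. -/
noncomputable def deg {V : Type*} (G : SimpleGraph V) (v : V) : ℕ := (G.neighborSet v).ncard

open Classical in
/-- the indicator function of a vertex -/
noncomputable def ee {V : Type*} (a : V) (v : V) : ℕ := if v = a then 1 else 0

section

variable {V : Type*} [Finite V] {G : SimpleGraph V}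

/-- the graph G realises the degree function f -/
def Rz {V : Type*} (f : V → ℕ) (G : SimpleGraph V) : Prop := ∀ v, deg G v = f v

/-- some graph on V realises the degree function f -/
def Gr {V : Type*} (f : V → ℕ) : Prop := ∃ G : SimpleGraph V, Rz f G

theorem deg_sup {a b : V} (h : a ≠ b) (hn : ¬ G.Adj a b) (v : V) :
    deg (G ⊔ edge a b) v = deg G v + ee a v + ee b v := by
  unfold deg ee
  by_cases hva : v = a
  · subst hva
    have hs : (G ⊔ edge v b).neighborSet v = insert b (G.neighborSet v) := by
      ext y
      rw [mem_neighborSet, sup_adj, edge_adj, Set.mem_insert_iff, mem_neighborSet]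
      constructor
      · rintro (h1 | ⟨h1 | h1, h2⟩)
        · exact Or.inr h1
        · exact Or.inl h1.2
        · exact absurd h1.1 h
      · rintro (h1 | h1)
        · exact Or.inr ⟨Or.inl ⟨rfl, h1⟩, by rw [h1]; exact h⟩
        · exact Or.inl h1
    rw [hs, Set.ncard_insert_of_notMem (by simpa using hn) (Set.toFinite _)]
    simp [h]
  · by_cases hvb : v = b
    · subst hvb
      have hs : (G ⊔ edge a v).neighborSet v = insert a (G.neighborSet v) := by
        ext y
        rw [mem_neighborSet, sup_adj, edge_adj, Set.mem_insert_iff, mem_neighborSet]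
        constructor
        · rintro (h1 | ⟨h1 | h1, h2⟩)
          · exact Or.inr h1
          · exact absurd h1.1 hva
          · exact Or.inl h1.2
        · rintro (h1 | h1)
          · exact Or.inr ⟨Or.inr ⟨rfl, h1⟩, by rw [h1]; exact hva⟩
          · exact Or.inl h1
      rw [hs, Set.ncard_insert_of_notMem (by simpa [adj_comm] using hn) (Set.toFinite _)]
      simp [hva]
    · have hs : (G ⊔ edge a b).neighborSet v = G.neighborSet v := by
        ext y
        simp only [mem_neighborSet, sup_adj, edge_adj]
        constructor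
        · rintro (h1 | ⟨h1 | h1, h2⟩)
          · exact h1
          · exact absurd h1.1 hva
          · exact absurd h1.1 hvb
        · intro h1
          exact Or.inl h1
      rw [hs]
      simp [hva, hvb]

theorem deg_sdiff {a b : V} (h : G.Adj a b) (v : V) :
    deg G v = deg (G \ edge a b) v + ee a v + ee b v := by
  have h1 : ¬ (G \ edge a b).Adj a b := by
    simp [edge_adj, h.ne]
  have h2 : (G \ edge a b) ⊔ edge a b = G := by
    ext x y
    simp only [sup_adj, sdiff_adj, edge_adj]
    constructor
    · rintro (h3 | ⟨⟨rfl, rfl⟩ | ⟨rfl, rfl⟩, h4⟩)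
      · exact h3.1
      · exact h
      · exact h.symm
    · intro h3
      by_cases h5 : (x = a ∧ y = b ∨ x = b ∧ y = a) ∧ x ≠ y
      · exact Or.inr h5
      · exact Or.inl ⟨h3, h5⟩
  have h3 := deg_sup (G := G \ edge a b) h.ne h1 v
  rwa [h2] at h3

theorem add_edge {f : V → ℕ} (hG : Rz f G) {a b : V} (h : a ≠ b) (hn : ¬ G.Adj a b) :
    Rz (fun v => f v + ee a v + ee b v) (G ⊔ edge a b) := by
  intro v
  rw [deg_sup h hn, hG v]

theorem del_edge {f : V → ℕ} {a b : V} (hG : Rz (fun v => f v + ee a v + ee b v) G)
    (h : G.Adj a b) : Rz f (G \ edge a b) := by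
  intro v
  have h1 := deg_sdiff h v
  have h2 := hG v
  simp only at h2
  omega

theorem exists_switch {p q w : V} (hpq : p ≠ q) (hle : deg G p ≤ deg G q)
    (hpw : G.Adj p w) (hqw : ¬ G.Adj q w) (hwq : w ≠ q) :
    ∃ z, G.Adj q z ∧ ¬ G.Adj p z ∧ z ≠ p := by
  by_contra hcon
  push Not at hcon
  have hss : G.neighborSet q \ {p} ⊂ G.neighborSet p \ {q} := by
    refine ⟨?_, ?_⟩
    · intro z hz
      have hz1 : G.Adj q z := hz.1
      have hz2 : z ≠ p := hz.2
      refine ⟨?_, ?_⟩
      · by_contra h3
        exact hz2 (hcon z hz1 h3)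
      · intro h4
        have h5 : z = q := h4
        rw [h5] at hz1
        exact hz1.ne rfl
    · intro h
      have h1 : w ∈ G.neighborSet p \ {q} := ⟨hpw, hwq⟩
      exact hqw (h h1).1
  have hlt := Set.ncard_lt_ncard hss (Set.toFinite _)
  unfold deg at hle
  by_cases hadj : G.Adj p q
  · have h1 : p ∈ G.neighborSet q := hadj.symm
    have h2 : q ∈ G.neighborSet p := hadj
    rw [Set.ncard_sdiff_singleton_of_mem h1, Set.ncard_sdiff_singleton_of_mem h2] at hlt
    omega
  · have h1 : p ∉ G.neighborSet q := fun h => hadj (SimpleGraph.Adj.symm h)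
    have h2 : q ∉ G.neighborSet p := hadj
    rw [Set.sdiff_singleton_eq_self h1, Set.sdiff_singleton_eq_self h2] at hlt
    omega

/-- The two-switch lemma. -/
theorem switch {f : V → ℕ} (hG : Rz f G) {p q w : V} (hpq : p ≠ q) (hle : f p ≤ f q)
    (hpw : G.Adj p w) (hqw : ¬ G.Adj q w) (hwq : w ≠ q) :
    ∃ G' : SimpleGraph V, Rz f G' ∧ G'.Adj q w := by
  obtain ⟨z, hqz, hpz, hzp⟩ := exists_switch hpq (by rw [hG p, hG q]; exact hle) hpw hqw hwq
  have hwz : w ≠ z := by
    rintro rfl
    exact hpz hpw
  have hzq : z ≠ q := hqz.ne'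
  have hwp : w ≠ p := hpw.ne'
  set G1 := G \ edge p w with hG1
  set G2 := G1 \ edge q z with hG2
  set G3 := G2 ⊔ edge p z with hG3
  have a1 : G1.Adj q z := by
    simp [hG1, edge_adj, hqz, hpq.symm, hwq.symm]
  have a2 : ¬ G2.Adj p z := by
    simp [hG2, hG1, hpz]
  have a3 : ¬ G3.Adj q w := by
    simp [hG3, hG2, hG1, edge_adj, hqw, hpq.symm, hzq.symm]
  have a4 : (G3 ⊔ edge q w).Adj q w := by
    simp [edge_adj, hwq.symm]
  refine ⟨G3 ⊔ edge q w, ?_, a4⟩
  intro v
  have e1 := deg_sdiff hpw v
  have e2 := deg_sdiff a1 v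
  have e3 := deg_sup hzp.symm a2 v
  have e4 := deg_sup hwq.symm a3 v
  have e5 := hG v
  rw [← hG1] at e1
  rw [← hG2] at e2
  rw [← hG3] at e3
  omega

theorem ee_self (a : V) : ee a a = 1 := by simp [ee]

theorem ee_ne {a v : V} (h : v ≠ a) : ee a v = 0 := by simp [ee, h]

theorem exists_adj_of_pos {v : V} (h : 0 < deg G v) : ∃ w, G.Adj v w := by
  unfold deg at h
  rw [Set.ncard_pos] at h
  exact h

theorem not_adj_of_zero {v w : V} (h : deg G v = 0) : ¬ G.Adj v w := by
  unfold deg at h
  rw [Set.ncard_eq_zero] at h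
  intro h1
  have h2 : w ∈ G.neighborSet v := h1
  rw [h] at h2
  exact h2

theorem unique_of_one {v w w' : V} (h : deg G v = 1) (h1 : G.Adj v w) (h2 : G.Adj v w') :
    w = w' := by
  unfold deg at h
  obtain ⟨y, hy⟩ := Set.ncard_eq_one.mp h
  have h3 : w ∈ G.neighborSet v := h1
  have h4 : w' ∈ G.neighborSet v := h2
  rw [hy] at h3 h4
  exact h3.trans h4.symm

/-- deleting a leaf at the vertex v1 of largest degree -/
theorem del_leaf {h : V → ℕ} {v1 u : V} (hu : u ≠ v1) (hu0 : h u = 0)
    (hmax : ∀ p, p ≠ v1 → h p ≤ h v1 + 1)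
    (hgr : Gr (fun v => h v + ee v1 v + ee u v)) : Gr h := by
  obtain ⟨G, hG⟩ := hgr
  have hdu : deg G u = 1 := by
    rw [hG u]
    simp [hu0, ee_self, ee_ne hu]
  obtain ⟨p, hp⟩ := exists_adj_of_pos (G := G) (v := u) (by omega)
  by_cases hpv : p = v1
  · subst hpv
    exact ⟨_, del_edge hG hp.symm⟩
  · have hpu : p ≠ u := hp.ne'
    have h1 : ¬ G.Adj v1 u := by
      intro h2
      exact hpv (unique_of_one hdu hp h2.symm)
    have h3 : h p + ee v1 p + ee u p ≤ h v1 + ee v1 v1 + ee u v1 := by
      rw [ee_ne hpv, ee_ne hpu, ee_self, ee_ne hu.symm]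
      have := hmax p hpv
      omega
    obtain ⟨G', hG', hadj⟩ := switch hG hpv h3 hp.symm h1 hu
    exact ⟨_, del_edge hG' hadj⟩

/-- hanging a new leaf -/
theorem add_leaf {h : V → ℕ} {v1 u : V} (hu : u ≠ v1) (hu0 : h u = 0) (hgr : Gr h) :
    Gr (fun v => h v + ee v1 v + ee u v) := by
  obtain ⟨G, hG⟩ := hgr
  refine ⟨_, add_edge hG hu.symm ?_⟩
  intro h1
  exact not_adj_of_zero (by rw [hG u, hu0]) h1.symm

theorem grow {h : V → ℕ} {v1 v2 w : V} (h12 : v1 ≠ v2) (hw1 : w ≠ v1) (hw2 : w ≠ v2)
    (hw : h w = 1) (hle : h v2 ≤ h v1) (hgr : Gr h) :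
    Gr (fun v => h v + ee v2 v + ee w v) := by
  obtain ⟨G, hG⟩ := hgr
  have hdw : deg G w = 1 := by rw [hG w, hw]
  by_cases hadj : G.Adj v2 w
  · have h1 : ¬ G.Adj v1 w := by
      intro h2
      exact h12 (unique_of_one hdw h2.symm hadj.symm)
    obtain ⟨G', hG', hadj'⟩ := switch hG h12.symm hle hadj h1 hw1
    refine ⟨_, add_edge hG' hw2.symm ?_⟩
    intro h3
    have hdw' : deg G' w = 1 := by rw [hG' w, hw]
    exact h12 (unique_of_one hdw' hadj'.symm h3.symm)
  · exact ⟨_, add_edge hG hw2.symm hadj⟩

theorem shrink {h : V → ℕ} {v1 v2 w : V} (hw2 : w ≠ v2) (hw : h w = 1)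
    (hmax : ∀ p, p ≠ v1 → p ≠ v2 → h p ≤ h v2 + 1)
    (hgr : Gr (fun v => h v + ee v2 v + ee w v)) : Gr h := by
  obtain ⟨G, hG⟩ := hgr
  have hdw : deg G w = 2 := by
    rw [hG w]
    simp [hw, ee_self, ee_ne hw2]
  by_cases hadj : G.Adj v2 w
  · exact ⟨_, del_edge hG hadj⟩
  · have hy : ∃ y, G.Adj w y ∧ y ≠ v1 := by
      by_contra hcon
      push Not at hcon
      have hsub : G.neighborSet w ⊆ {v1} := by
        intro y hy
        exact hcon y hy
      have := Set.ncard_le_ncard hsub (Set.toFinite _)
      rw [Set.ncard_singleton] at this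
      unfold deg at hdw
      omega
    obtain ⟨y, hwy, hy1⟩ := hy
    have hy2 : y ≠ v2 := by
      rintro rfl
      exact hadj hwy.symm
    have hyw : y ≠ w := hwy.ne'
    have h3 : h y + ee v2 y + ee w y ≤ h v2 + ee v2 v2 + ee w v2 := by
      rw [ee_ne hy2, ee_ne hyw, ee_self, ee_ne hw2.symm]
      have := hmax y hy1 hy2
      omega
    obtain ⟨G', hG', hadj'⟩ := switch hG hy2 h3 hwy.symm hadj hw2
    exact ⟨_, del_edge hG' hadj'⟩

/-- The criterion: with two ones, some realisation is disconnected if and only if the sequence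
without the two ones is graphical. -/
theorem crit {h : V → ℕ} {a b c : V} (hab : a ≠ b) (hca : c ≠ a) (hcb : c ≠ b)
    (ha : h a = 0) (hb : h b = 0) (hpos : ∀ v, v ≠ a → v ≠ b → 0 < h v) :
    (∃ G : SimpleGraph V, Rz (fun v => h v + ee a v + ee b v) G ∧ ¬ G.Connected) ↔ Gr h := by
  constructor
  · rintro ⟨G, hG, hcon⟩
    have hda : deg G a = 1 := by
      rw [hG a]; simp [ha, ee_self, ee_ne hab]
    have hdb : deg G b = 1 := by
      rw [hG b]; simp [hb, ee_self, ee_ne hab.symm]
    obtain ⟨p, hp⟩ := exists_adj_of_pos (G := G) (v := a) (by omega)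
    obtain ⟨q, hq⟩ := exists_adj_of_pos (G := G) (v := b) (by omega)
    by_cases hpb : p = b
    · subst hpb
      exact ⟨_, del_edge hG hp⟩
    · have hqa : q ≠ a := by
        rintro rfl
        exact hpb (unique_of_one hda hp hq.symm)
      have hpa : p ≠ a := hp.ne'
      have hqb : q ≠ b := hq.ne'
      by_cases hpq : p ≠ q ∧ ¬ G.Adj p q
      · obtain ⟨hne, hnadj⟩ := hpq
        set G1 := G \ edge a p with hG1
        set G2 := G1 \ edge b q with hG2
        have a1 : G1.Adj b q := by
          simp [hG1, edge_adj, hq, hab.symm, Ne.symm hpb]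
        have a2 : ¬ G2.Adj p q := by
          simp [hG2, hG1, hnadj]
        refine ⟨G2 ⊔ edge p q, ?_⟩
        intro v
        have e1 := deg_sdiff hp v
        have e2 := deg_sdiff a1 v
        have e3 := deg_sup hne a2 v
        have e5 := hG v
        rw [← hG1] at e1
        rw [← hG2] at e2
        simp only at e5
        omega
      · have hreach : G.Reachable p q := by
          by_cases h1 : p = q
          · rw [h1]
          · have h2 : G.Adj p q := by
              by_contra h3
              exact hpq ⟨h1, h3⟩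
            exact h2.reachable
        have hex : ∃ x, ¬ G.Reachable p x := by
          by_contra hall
          push Not at hall
          apply hcon
          have : Nonempty V := ⟨a⟩
          refine SimpleGraph.Connected.mk ?_
          intro x y
          exact (hall x).symm.trans (hall y)
        obtain ⟨x, hx⟩ := hex
        have hxa : x ≠ a := by
          rintro rfl
          exact hx hp.symm.reachable
        have hxb : x ≠ b := by
          rintro rfl
          exact hx (hreach.trans hq.symm.reachable)
        have hdx : 0 < deg G x := by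
          rw [hG x]
          have := hpos x hxa hxb
          simp only
          omega
        obtain ⟨y, hxy⟩ := exists_adj_of_pos hdx
        have hy : ¬ G.Reachable p y := fun h1 => hx (h1.trans hxy.symm.reachable)
        have hya : y ≠ a := by
          rintro rfl
          exact hy hp.symm.reachable
        have hyb : y ≠ b := by
          rintro rfl
          exact hy (hreach.trans hq.symm.reachable)
        have hpx : p ≠ x := by
          rintro rfl
          exact hx (Reachable.refl _)
        have hpy : p ≠ y := by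
          rintro rfl
          exact hy (Reachable.refl _)
        have hqx : q ≠ x := by
          rintro rfl
          exact hx hreach
        have hqy : q ≠ y := by
          rintro rfl
          exact hy hreach
        have hpx' : ¬ G.Adj p x := fun h1 => hx h1.reachable
        have hqy' : ¬ G.Adj q y := fun h1 => hy (hreach.trans h1.reachable)
        set G1 := G \ edge a p with hG1
        set G2 := G1 \ edge b q with hG2
        set G3 := G2 \ edge x y with hG3
        set G4 := G3 ⊔ edge p x with hG4
        have a1 : G1.Adj b q := by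
          simp [hG1, edge_adj, hq, hab.symm, Ne.symm hpb]
        have a2 : G2.Adj x y := by
          simp [hG2, hG1, edge_adj, hxy, hxa, hxb, hpx.symm, hqx.symm]
        have a3 : ¬ G3.Adj p x := by
          simp [hG3, hG2, hG1, hpx']
        have a4 : ¬ G4.Adj q y := by
          simp [hG4, hG3, hG2, hG1, edge_adj, hqy', hqx, hpy.symm, hxy.ne']
        refine ⟨G4 ⊔ edge q y, ?_⟩
        intro v
        have e1 := deg_sdiff hp v
        have e2 := deg_sdiff a1 v
        have e3 := deg_sdiff a2 v
        have e4 := deg_sup hpx a3 v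
        have e6 := deg_sup hqy a4 v
        have e5 := hG v
        rw [← hG1] at e1
        rw [← hG2] at e2
        rw [← hG3] at e3
        rw [← hG4] at e4
        simp only at e5
        omega
  · rintro ⟨G, hG⟩
    have hna : ¬ G.Adj a b := not_adj_of_zero (by rw [hG a, ha])
    refine ⟨G ⊔ edge a b, add_edge hG hab hna, ?_⟩
    intro hcon
    have key : ∀ x, (G ⊔ edge a b).Reachable a x → x = a ∨ x = b := by
      intro x hx
      obtain ⟨wk⟩ := hx
      have gen : ∀ (u v : V), (G ⊔ edge a b).Walk u v → (u = a ∨ u = b) → (v = a ∨ v = b) := by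
        intro u v wk
        induction wk with
        | nil => exact fun h => h
        | cons hadj _ ih =>
          intro h1
          apply ih
          simp only [sup_adj, edge_adj] at hadj
          rcases hadj with h2 | ⟨h2 | h2, _⟩
          · exfalso
            rcases h1 with rfl | rfl
            · exact not_adj_of_zero (by rw [hG _, ha]) h2
            · exact not_adj_of_zero (by rw [hG _, hb]) h2
          · exact Or.inr h2.2
          · exact Or.inl h2.2
      exact gen a x wk (Or.inl rfl)
    rcases key c (hcon.preconnected a c) with h1 | h1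
    · exact hca h1
    · exact hcb h1

/-- a vertex joined to all others makes the graph connected -/
theorem dom_connected {v : V} (h : ∀ w, w ≠ v → G.Adj v w) : G.Connected := by
  have : Nonempty V := ⟨v⟩
  refine SimpleGraph.Connected.mk ?_
  have h1 : ∀ w, G.Reachable v w := by
    intro w
    by_cases hw : w = v
    · rw [hw]
    · exact (h w hw).reachable
  intro x y
  exact (h1 x).symm.trans (h1 y)

theorem deg_lt_card (v : V) : deg G v < Nat.card V := by
  unfold deg
  have h1 : G.neighborSet v ⊂ Set.univ := by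
    refine ⟨Set.subset_univ _, ?_⟩
    intro h
    exact (h (Set.mem_univ v) : G.Adj v v).ne rfl
  have h2 := Set.ncard_lt_ncard h1 (Set.toFinite _)
  rwa [Set.ncard_univ] at h2

theorem dom_of_deg {v : V} (h : deg G v + 1 = Nat.card V) : G.Connected := by
  apply dom_connected (v := v)
  intro w hw
  by_contra hcon
  have h1 : G.neighborSet v ⊆ Set.univ \ {v, w} := by
    intro y hy
    refine ⟨Set.mem_univ _, ?_⟩
    rintro (rfl | h2)
    · exact (hy : G.Adj _ _).ne rfl
    · have h3 : y = w := h2
      rw [h3] at hy
      exact hcon hy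
  have h2 := Set.ncard_le_ncard h1 (Set.toFinite _)
  rw [Set.ncard_sdiff (Set.subset_univ _) (Set.toFinite _), Set.ncard_univ,
    Set.ncard_pair hw.symm] at h2
  unfold deg at h
  have h3 : 2 ≤ Nat.card V := by
    have h4 := Set.ncard_le_ncard (Set.subset_univ ({v, w} : Set V)) (Set.toFinite _)
    rwa [Set.ncard_univ, Set.ncard_pair hw.symm] at h4
  omega

end

end Pool.Agent.H88.FC
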