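import Pool.Agent.H88.FC.Tail
import Pool.Agent.H95.FX.Stm

/-!
The numbers F(n, D) of forcibly connected graphical partitions by largest part, and the
comparison of F(n, D + 1) with F(n, D) in terms of the exceptional partitions.
-/

namespace Pool.Agent.H88.FC

/-- The set of the forcibly connected graphical partitions of n whose largest part is D. -/
def FCset (n D : ℕ) : Set n.Partition :=
  {p | ForciblyConnected p.parts ∧ D ∈ p.parts ∧ ∀ y ∈ p.parts, y ≤ D}

/-- F(n, D): the number of the forcibly connected graphical partitions of n with largest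
part D. -/
noncomputable def F (n D : ℕ) : ℕ := (FCset n D).ncard

theorem ncard_le_of_rel {α β : Type*} [Finite β] {A : Set α} {B : Set β} (R : α → β → Prop)
    (hex : ∀ a ∈ A, ∃ b ∈ B, R a b)
    (hinj : ∀ a a' b, R a b → R a' b → a = a') : A.ncard ≤ B.ncard := by
  classical
  rcases A.eq_empty_or_nonempty with h0 | ⟨a0, ha0⟩
  · rw [h0, Set.ncard_empty]
    exact Nat.zero_le _
  have hne : Nonempty β := ⟨(hex a0 ha0).choose⟩
  choose! g hg using hex
  apply Set.ncard_le_ncard_of_injOn g (fun a ha => (hg a ha).1) ?_ (Set.toFinite _)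
  intro a ha a' ha' h
  apply hinj a a' (g a) (hg a ha).2
  rw [h]
  exact (hg a' ha').2

theorem F_succ_le {n D : ℕ} (hn : n ≤ 3 * D) : F n (D + 1) ≤ F n D := by
  apply ncard_le_of_rel (fun p q => R1 D p.parts q.parts)
  · rintro p ⟨hfc, hmem, hmax⟩
    obtain ⟨m', hR, hsum, hpos, hmem', hmax', hfc'⟩ := move_exists hn p.parts_sum
      (fun y hy => p.parts_pos hy) hmem hmax hfc
    exact ⟨⟨m', fun {i} hi => hpos i hi, hsum⟩, ⟨hfc', hmem', hmax'⟩, hR⟩
  · intro p p' q h h'
    exact Nat.Partition.ext (R1_inj h h')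

/-- the relation R1 with the second part of m at least two -/
def R1x (D : ℕ) (m m' : Multiset ℕ) : Prop :=
  ∃ (x : ℕ) (S : Multiset ℕ), 2 ≤ x ∧ (∀ y ∈ S, y ≤ x) ∧
    m = (D + 1) ::ₘ x ::ₘ 1 ::ₘ 1 ::ₘ S ∧ m' = D ::ₘ (x + 1) ::ₘ 2 ::ₘ S

theorem R1x_R1 {D : ℕ} {m m' : Multiset ℕ} (h : R1x D m m') : R1 D m m' := by
  obtain ⟨x, S, hx, hS, h1, h2⟩ := h
  exact ⟨x, S, by omega, hS, h1, h2⟩

open Pool.Agent.H95.FX in
theorem graphical_of_GrM {s : Multiset ℕ} (h : GrM s) : Graphical s := by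
  obtain ⟨V, hV, G, hG⟩ := h
  rw [graphical_iff (deg G) (m := s) hG]
  exact ⟨G, fun _ => rfl⟩

open Pool.Agent.H95.FX in
theorem mSet_subset (n D : ℕ) : mSet n D ⊆ FCset n D := by
  rintro p ⟨y, S, hp, hy, hS, hcard, hgr⟩
  have hg := graphical_of_GrM hgr
  rw [hp] at hg
  refine ⟨?_, ?_, ?_⟩
  · rw [hp]
    apply domM _ hg
    simp only [Multiset.card_cons]
    omega
  · rw [hp]
    exact Multiset.mem_cons_self _ _
  · intro z hz
    rw [hp] at hz
    simp only [Multiset.mem_cons] at hz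
    rcases hz with rfl | rfl | rfl | hz
    · exact le_refl _
    · exact hy
    · exact hy
    · exact (hS z hz).trans hy

open Pool.Agent.H95.FX in
theorem not_mSet {n D : ℕ} {m : Multiset ℕ} {q : n.Partition} (h : R1x D m q.parts) :
    q ∉ mSet n D := by
  rintro ⟨y, S', hp, hy, hS', hcard, hgr⟩
  obtain ⟨x, S, hx, hS, h1, h2⟩ := h
  rw [hp, Multiset.cons_inj_right] at h2
  have h3 : x + 1 ≤ y := by
    have h4 : x + 1 ∈ y ::ₘ y ::ₘ S' := by
      rw [h2]
      exact Multiset.mem_cons_self _ _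
    simp only [Multiset.mem_cons] at h4
    rcases h4 with h4 | h4 | h4
    · omega
    · omega
    · exact hS' _ h4
  have h5 : y ≤ x + 1 := by
    have h4 : y ∈ (x + 1) ::ₘ 2 ::ₘ S := by
      rw [← h2]
      exact Multiset.mem_cons_self _ _
    simp only [Multiset.mem_cons] at h4
    rcases h4 with h4 | h4 | h4
    · omega
    · omega
    · have := hS _ h4
      omega
  have h6 : y = x + 1 := by omega
  subst h6
  rw [Multiset.cons_inj_right] at h2
  have h7 : x + 1 ∈ 2 ::ₘ S := by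
    rw [← h2]
    exact Multiset.mem_cons_self _ _
  simp only [Multiset.mem_cons] at h7
  rcases h7 with h7 | h7
  · omega
  · have := hS _ h7
    omega

open Pool.Agent.H95.FX in
theorem move_nonexc {n D : ℕ} {p : n.Partition} (hp : p ∈ FCset n (D + 1))
    (hne : p ∉ excSet n D) :
    ∃ q ∈ FCset n D \ mSet n D, R1x D p.parts q.parts := by
  obtain ⟨hfc, hmem, hmax⟩ := hp
  obtain ⟨ρ, hρ⟩ := Multiset.exists_cons_of_mem hmem
  have hpos : ∀ y ∈ p.parts, 0 < y := fun y hy => p.parts_pos hy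
  have hsum := p.parts_sum
  rw [hρ] at hfc hpos hsum hmax
  have hcard := degM hfc.1
  have hρmax : ∀ x ∈ ρ, x ≤ D + 1 := fun x hx => hmax x (Multiset.mem_cons_of_mem hx)
  have hnot : ¬ (ρ.count 1 ≤ 3 ∨ (∃ x ∈ ρ, D ≤ x) ∨ ∀ x ∈ ρ, x = 1) := by
    intro h
    exact hne ⟨ρ, hρ, hρmax, hcard, h⟩
  push Not at hnot
  obtain ⟨hc4, hxD, z, hz, hz1⟩ := hnot
  have hρ0 : ρ ≠ 0 := by
    rintro rfl
    simp at hz
  obtain ⟨x, ρ', rfl, hx⟩ := exists_max hρ0
  have hxlt : x < D := hxD x (Multiset.mem_cons_self _ _)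
  have hzpos : 0 < z := hpos z (Multiset.mem_cons_of_mem hz)
  have hx2 : 2 ≤ x := by
    rw [Multiset.mem_cons] at hz
    rcases hz with rfl | hz
    · omega
    · have := hx z hz
      omega
  rw [Multiset.count_cons, if_neg (by omega : ¬ (1 = x))] at hc4
  obtain ⟨ρ1, rfl⟩ := exists_two (T := ρ') (by omega)
  rw [Multiset.count_cons_self, Multiset.count_cons_self] at hc4
  obtain ⟨S, rfl⟩ := exists_two (T := ρ1) (by omega)
  have hSx : ∀ y ∈ S, y ≤ x := fun y hy => hx y (by simp [hy])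
  have hSpos : ∀ y ∈ S, 0 < y := fun y hy => hpos y (by simp [hy])
  have hfc' := fc_move (by omega) (by omega) hSx hSpos hfc
  have hpos' : ∀ y ∈ D ::ₘ (x + 1) ::ₘ 2 ::ₘ 1 ::ₘ 1 ::ₘ S, 0 < y := by
    intro y hy
    simp only [Multiset.mem_cons] at hy
    rcases hy with rfl | rfl | rfl | rfl | rfl | hy
    · omega
    · omega
    · omega
    · omega
    · omega
    · exact hSpos y hy
  have hsum' : (D ::ₘ (x + 1) ::ₘ 2 ::ₘ 1 ::ₘ 1 ::ₘ S).sum = n := by
    simp only [Multiset.sum_cons] at hsum ⊢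
    omega
  have hR : R1x D p.parts (D ::ₘ (x + 1) ::ₘ 2 ::ₘ 1 ::ₘ 1 ::ₘ S) := by
    refine ⟨x, 1 ::ₘ 1 ::ₘ S, hx2, ?_, hρ, rfl⟩
    intro y hy
    simp only [Multiset.mem_cons] at hy
    rcases hy with rfl | rfl | hy
    · omega
    · omega
    · exact hSx y hy
  refine ⟨⟨D ::ₘ (x + 1) ::ₘ 2 ::ₘ 1 ::ₘ 1 ::ₘ S, fun {i} hi => hpos' i hi, hsum'⟩,
    ⟨⟨hfc', ?_, ?_⟩, not_mSet hR⟩, hR⟩
  · exact Multiset.mem_cons_self _ _
  · intro y hy
    change y ∈ D ::ₘ (x + 1) ::ₘ 2 ::ₘ 1 ::ₘ 1 ::ₘ S at hy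
    simp only [Multiset.mem_cons] at hy
    rcases hy with rfl | rfl | rfl | rfl | rfl | hy
    · omega
    · omega
    · omega
    · omega
    · omega
    · have := hSx y hy
      omega

open Pool.Agent.H95.FX in
theorem F_le_of_exc {n D : ℕ} (hexc : (excSet n D).ncard ≤ (mSet n D).ncard) :
    F n (D + 1) ≤ F n D := by
  have h1 : (FCset n (D + 1) \ excSet n D).ncard ≤ (FCset n D \ mSet n D).ncard := by
    apply ncard_le_of_rel (fun p q => R1x D p.parts q.parts)
    · rintro p ⟨hp, hne⟩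
      exact move_nonexc hp hne
    · intro p p' q h h'
      exact Nat.Partition.ext (R1_inj (R1x_R1 h) (R1x_R1 h'))
  have h2 : (FCset n (D + 1)).ncard ≤ (FCset n (D + 1) \ excSet n D).ncard +
      (excSet n D).ncard := by
    refine (Set.ncard_le_ncard ?_ (Set.toFinite _)).trans (Set.ncard_union_le _ _)
    intro p hp
    by_cases h : p ∈ excSet n D
    · exact Or.inr h
    · exact Or.inl ⟨hp, h⟩
  have h3 := Set.ncard_sdiff_add_ncard_of_subset (mSet_subset n D) (Set.toFinite _)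
  unfold F
  omega

open Pool.Agent.H95.FX in
/-- the assembly: the counting statement gives the inequality on the whole right branch -/
theorem branch_of_count (h : SCount) {n D : ℕ} (hn : Even n)
    (hD : 100 * Real.sqrt n * Real.log n ≤ D) : F n (D + 1) ≤ F n D := by
  rcases Nat.lt_or_ge (3 * D) n with h3 | h3
  · exact F_le_of_exc (h n D hn h3 hD)
  · exact F_succ_le h3

end Pool.Agent.H88.FC
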