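import Pool.Agent.H88.FC.Core

/-!
Graphical and forcibly connected multisets, and the moves on them.
-/

namespace Pool.Agent.H88.FC

open SimpleGraph

/-- The graph G is a realization of the multiset m: the multiset of its degrees is m. -/
def Realizes {k : ℕ} (G : SimpleGraph (Fin k)) (m : Multiset ℕ) : Prop :=
  Multiset.map (deg G) (Finset.univ : Finset (Fin k)).val = m

/-- The multiset m is the degree sequence of some finite simple graph. -/
def Graphical (m : Multiset ℕ) : Prop :=
  ∃ (k : ℕ) (G : SimpleGraph (Fin k)), Realizes G m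

/-- The multiset m is graphical and each of its realizations is connected. -/
def ForciblyConnected (m : Multiset ℕ) : Prop :=
  Graphical m ∧ ∀ (k : ℕ) (G : SimpleGraph (Fin k)), Realizes G m → G.Connected

section transfer

theorem exists_equiv {V W : Type*} [Fintype V] [Fintype W] (f : V → ℕ) (g : W → ℕ)
    (h : Multiset.map f (Finset.univ : Finset V).val =
      Multiset.map g (Finset.univ : Finset W).val) :
    ∃ e : V ≃ W, ∀ v, g (e v) = f v := by
  classical
  have hc : ∀ n, Nonempty ({v // f v = n} ≃ {w // g w = n}) := by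
    intro n
    have h1 := congrArg (Multiset.count n) h
    rw [Multiset.count_map, Multiset.count_map] at h1
    refine ⟨Fintype.equivOfCardEq ?_⟩
    rw [Fintype.card_subtype, Fintype.card_subtype]
    have h2 : ∀ {U : Type _} [Fintype U] (q : U → ℕ),
        (Finset.univ.filter (fun v => q v = n)).card =
          Multiset.card (Multiset.filter (fun a => n = q a) (Finset.univ : Finset U).val) := by
      intro U _ q
      have : (Finset.univ.filter (fun v => q v = n)) = Finset.univ.filter (fun v => n = q v) := by
        ext v; simp [eq_comm]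
      rw [this]
      rfl
    have h3 : ∀ {U : Type _} [Fintype U] (q : U → ℕ),
        (Finset.univ.filter (fun v => q v = n)).card =
          Multiset.card (Multiset.filter (fun a => n = q a) (Finset.univ : Finset U).val) := by
      intro U _ q
      have : (Finset.univ.filter (fun v => q v = n)) = Finset.univ.filter (fun v => n = q v) := by
        ext v; simp [eq_comm]
      rw [this]
      rfl
    rw [h2 f, h3 g]
    exact h1
  have en : ∀ n, {v // f v = n} ≃ {w // g w = n} := fun n => Classical.choice (hc n)
  refine ⟨(Equiv.sigmaFiberEquiv f).symm.trans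
    ((Equiv.sigmaCongrRight en).trans (Equiv.sigmaFiberEquiv g)), ?_⟩
  intro v
  exact (en (f v) ⟨v, rfl⟩).2

theorem deg_comap {V W : Type*} [Finite V] [Finite W] (G : SimpleGraph W) (e : V ≃ W) (v : V) :
    deg (G.comap e) v = deg G (e v) := by
  unfold deg
  have h1 : e '' ((G.comap e).neighborSet v) = G.neighborSet (e v) := by
    ext y
    constructor
    · rintro ⟨x, hx, rfl⟩
      exact hx
    · intro hy
      refine ⟨e.symm y, ?_, by simp⟩
      change G.Adj (e v) (e (e.symm y))
      simpa using hy
  rw [← h1, Set.ncard_image_of_injective _ e.injective]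

theorem connected_comap {V W : Type*} (G : SimpleGraph W) (e : V ≃ W) :
    (G.comap e).Connected ↔ G.Connected :=
  (SimpleGraph.Iso.comap e G).connected_iff

theorem gr_equiv {V W : Type*} [Finite V] [Finite W] (e : V ≃ W) (f : V → ℕ) (g : W → ℕ)
    (h : ∀ v, g (e v) = f v) : Gr f ↔ Gr g := by
  constructor
  · rintro ⟨G, hG⟩
    refine ⟨G.comap e.symm, ?_⟩
    intro w
    rw [deg_comap, hG, ← h, e.apply_symm_apply]
  · rintro ⟨G, hG⟩
    refine ⟨G.comap e, ?_⟩
    intro v
    rw [deg_comap, hG, h]

theorem conn_equiv {V W : Type*} [Finite V] [Finite W] (e : V ≃ W) (f : V → ℕ) (g : W → ℕ)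
    (h : ∀ v, g (e v) = f v) (hf : ∀ G : SimpleGraph V, Rz f G → G.Connected) :
    ∀ G : SimpleGraph W, Rz g G → G.Connected := by
  intro G hG
  rw [← connected_comap G e]
  apply hf
  intro v
  rw [deg_comap, hG, h]

theorem graphical_iff {V : Type*} [Fintype V] (f : V → ℕ) {m : Multiset ℕ}
    (hf : Multiset.map f (Finset.univ : Finset V).val = m) : Graphical m ↔ Gr f := by
  constructor
  · rintro ⟨k, G, hG⟩
    obtain ⟨e, he⟩ := exists_equiv f (deg G) (hf.trans hG.symm)
    rw [gr_equiv e f (deg G) he]
    exact ⟨G, fun _ => rfl⟩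
  · rintro ⟨G, hG⟩
    let e := Fintype.equivFin V
    refine ⟨Fintype.card V, G.comap e.symm, ?_⟩
    unfold Realizes
    rw [← hf]
    have h1 : deg (G.comap e.symm) = f ∘ e.symm := by
      funext i
      rw [deg_comap, hG]
      rfl
    rw [h1, ← Multiset.map_map]
    congr 1
    exact Multiset.map_univ_val_equiv e.symm

theorem fc_iff {V : Type*} [Fintype V] (f : V → ℕ) {m : Multiset ℕ}
    (hf : Multiset.map f (Finset.univ : Finset V).val = m) :
    ForciblyConnected m ↔ Gr f ∧ ∀ G : SimpleGraph V, Rz f G → G.Connected := by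
  unfold ForciblyConnected
  rw [graphical_iff f hf]
  refine and_congr_right ?_
  intro _
  constructor
  · intro h
    let e := Fintype.equivFin V
    apply conn_equiv e.symm (f ∘ e.symm) f (fun _ => rfl)
    intro G hG
    apply h (Fintype.card V) G
    unfold Realizes
    have h1 : deg G = f ∘ e.symm := funext hG
    rw [h1, ← Multiset.map_map, ← hf]
    congr 1
    exact Multiset.map_univ_val_equiv e.symm
  · intro h k G hG
    obtain ⟨e, he⟩ := exists_equiv f (deg G) (hf.trans hG.symm)
    exact conn_equiv e f (deg G) he h G (fun _ => rfl)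

end transfer

/-- prepend a value -/
def cns {V : Type*} (a : ℕ) (f : V → ℕ) : Option V → ℕ := fun o => o.elim a f

theorem map_cns {V : Type*} [Fintype V] (a : ℕ) (f : V → ℕ) :
    Multiset.map (cns a f) (Finset.univ : Finset (Option V)).val =
      a ::ₘ Multiset.map f (Finset.univ : Finset V).val := by
  rw [_root_.univ_option]
  change Multiset.map (cns a f) (none ::ₘ Multiset.map some (Finset.univ : Finset V).val) = _
  rw [Multiset.map_cons, Multiset.map_map]
  rfl

theorem exists_fn (S : Multiset ℕ) :
    ∃ (k : ℕ) (g : Fin k → ℕ), k = Multiset.card S ∧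
      Multiset.map g (Finset.univ : Finset (Fin k)).val = S := by
  induction S using Quotient.inductionOn with
  | _ l =>
    refine ⟨l.length, l.get, rfl, ?_⟩
    rw [Fin.univ_val_map]
    simp

theorem gr_zero {V : Type*} [Finite V] (f : V → ℕ) : Gr (cns 0 f) ↔ Gr f := by
  constructor
  · rintro ⟨G, hG⟩
    refine ⟨G.comap some, ?_⟩
    intro v
    have h1 := hG (some v)
    change deg G (some v) = f v at h1
    rw [← h1]
    unfold deg
    have h2 : some '' ((G.comap some).neighborSet v) = G.neighborSet (some v) := by
      ext y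
      constructor
      · rintro ⟨x, hx, rfl⟩
        exact hx
      · intro hy
        cases y with
        | none =>
          exfalso
          exact not_adj_of_zero (G := G) (v := none) (w := some v) (hG none) hy.symm
        | some y => exact ⟨y, hy, rfl⟩
    rw [← h2, Set.ncard_image_of_injective _ (Option.some_injective V)]
  · rintro ⟨G, hG⟩
    refine ⟨G.map some, ?_⟩
    intro o
    cases o with
    | none =>
      unfold deg cns
      have h1 : (G.map some).neighborSet (none : Option V) = ∅ := by
        ext y
        rw [mem_neighborSet, SimpleGraph.map_adj']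
        constructor
        · rintro ⟨_, u', v', _, h3, _⟩
          exact absurd h3 (by simp)
        · intro h2
          exact absurd h2 (Set.notMem_empty _)
      rw [h1]
      simp
    | some v =>
      have h1 : some '' (G.neighborSet v) = (G.map some).neighborSet (some v) := by
        ext y
        rw [mem_neighborSet, SimpleGraph.map_adj']
        constructor
        · rintro ⟨x, hx, rfl⟩
          exact ⟨fun h => hx.ne (Option.some.inj h), v, x, hx, rfl, rfl⟩
        · rintro ⟨_, u', v', h2, h3, h4⟩
          have h5 : u' = v := Option.some.inj h3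
          rw [h5] at h2
          exact ⟨v', h2, h4⟩
      change deg _ (some v) = f v
      rw [← hG v]
      unfold deg
      rw [← h1, Set.ncard_image_of_injective _ (Option.some_injective V)]

theorem graphical_zero (m : Multiset ℕ) : Graphical (0 ::ₘ m) ↔ Graphical m := by
  obtain ⟨k, g, -, hg⟩ := exists_fn m
  rw [graphical_iff g hg, graphical_iff (cns 0 g) (by rw [map_cns, hg]), gr_zero]

theorem M1 {D x : ℕ} {S : Multiset ℕ} (hx : x ≤ D) (hS : ∀ y ∈ S, y ≤ D + 1)
    (h : Graphical ((D + 1) ::ₘ x ::ₘ 1 ::ₘ 1 ::ₘ S)) :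
    Graphical (D ::ₘ (x + 1) ::ₘ 2 ::ₘ S) := by
  obtain ⟨k, g, -, hg⟩ := exists_fn S
  have hgS : ∀ i, g i ∈ S := by
    intro i
    rw [← hg]
    exact Multiset.mem_map_of_mem _ (Finset.mem_univ i)
  rw [graphical_iff (cns (D + 1) (cns x (cns 1 (cns 1 g)))) (by simp only [map_cns, hg])] at h
  have e1 : (cns (D + 1) (cns x (cns 1 (cns 1 g)))) =
      fun v => (cns D (cns x (cns 0 (cns 1 g)))) v + ee none v + ee (some (some none)) v := by
    funext v
    rcases v with _ | _ | _ | _ | v <;> simp [cns, ee]
  rw [e1] at h
  have h2 := del_leaf (h := cns D (cns x (cns 0 (cns 1 g)))) (v1 := none)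
    (u := some (some none)) (by simp) rfl (by
      intro p hp
      rcases p with _ | _ | _ | _ | p
      · exact absurd rfl hp
      · simp only [cns, Option.elim]; omega
      · simp only [cns, Option.elim]; omega
      · simp only [cns, Option.elim]; omega
      · simp only [cns, Option.elim]
        exact hS _ (hgS p)) h
  have h3 := grow (h := cns D (cns x (cns 0 (cns 1 g)))) (v1 := none) (v2 := some none)
    (w := some (some (some none))) (by simp) (by simp) (by simp) rfl hx h2
  have e2 : (fun v => (cns D (cns x (cns 0 (cns 1 g)))) v + ee (some none) v +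
      ee (some (some (some none))) v) = cns D (cns (x + 1) (cns 0 (cns 2 g))) := by
    funext v
    rcases v with _ | _ | _ | _ | v <;> simp [cns, ee]
  rw [e2, ← graphical_iff (cns D (cns (x + 1) (cns 0 (cns 2 g)))) rfl] at h3
  simp only [map_cns, hg] at h3
  rw [Multiset.cons_swap (x + 1) 0, Multiset.cons_swap D 0, graphical_zero] at h3
  exact h3

theorem M2 {D x : ℕ} {S : Multiset ℕ} (hS : ∀ y ∈ S, y ≤ x + 1)
    (h : Graphical (D ::ₘ (x + 1) ::ₘ 2 ::ₘ S)) :
    Graphical ((D + 1) ::ₘ x ::ₘ 1 ::ₘ 1 ::ₘ S) := by
  obtain ⟨k, g, -, hg⟩ := exists_fn S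
  have hgS : ∀ i, g i ∈ S := by
    intro i
    rw [← hg]
    exact Multiset.mem_map_of_mem _ (Finset.mem_univ i)
  rw [← graphical_zero, Multiset.cons_swap 0 D, Multiset.cons_swap 0 (x + 1),
    graphical_iff (cns D (cns (x + 1) (cns 0 (cns 2 g)))) (by simp only [map_cns, hg])] at h
  have e2 : (fun v => (cns D (cns x (cns 0 (cns 1 g)))) v + ee (some none) v +
      ee (some (some (some none))) v) = cns D (cns (x + 1) (cns 0 (cns 2 g))) := by
    funext v
    rcases v with _ | _ | _ | _ | v <;> simp [cns, ee]
  rw [← e2] at h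
  have h2 := shrink (h := cns D (cns x (cns 0 (cns 1 g)))) (v1 := none) (v2 := some none)
    (w := some (some (some none))) (by simp) rfl (by
      intro p hp1 hp2
      rcases p with _ | _ | _ | _ | p
      · exact absurd rfl hp1
      · exact absurd rfl hp2
      · simp only [cns, Option.elim]; omega
      · simp only [cns, Option.elim]; omega
      · simp only [cns, Option.elim]
        exact hS _ (hgS p)) h
  have h3 := add_leaf (h := cns D (cns x (cns 0 (cns 1 g)))) (v1 := none)
    (u := some (some none)) (by simp) rfl h2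
  have e1 : (cns (D + 1) (cns x (cns 1 (cns 1 g)))) =
      fun v => (cns D (cns x (cns 0 (cns 1 g)))) v + ee none v + ee (some (some none)) v := by
    funext v
    rcases v with _ | _ | _ | _ | v <;> simp [cns, ee]
  rw [← e1, ← graphical_iff (cns (D + 1) (cns x (cns 1 (cns 1 g)))) rfl] at h3
  simp only [map_cns, hg] at h3
  exact h3

theorem M3 {D : ℕ} {S : Multiset ℕ} (hS : ∀ y ∈ S, y ≤ D + 1) :
    Graphical ((D + 1) ::ₘ 1 ::ₘ S) ↔ Graphical (D ::ₘ S) := by
  obtain ⟨k, g, -, hg⟩ := exists_fn S
  have hgS : ∀ i, g i ∈ S := by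
    intro i
    rw [← hg]
    exact Multiset.mem_map_of_mem _ (Finset.mem_univ i)
  have e1 : (cns (D + 1) (cns 1 g)) =
      fun v => (cns D (cns 0 g)) v + ee none v + ee (some none) v := by
    funext v
    rcases v with _ | _ | v <;> simp [cns, ee]
  rw [← graphical_zero (D ::ₘ S), Multiset.cons_swap 0 D,
    graphical_iff (cns (D + 1) (cns 1 g)) (by simp only [map_cns, hg]),
    graphical_iff (cns D (cns 0 g)) (by simp only [map_cns, hg]), e1]
  constructor
  · intro h
    refine del_leaf (h := cns D (cns 0 g)) (v1 := none) (u := some none) (by simp) rfl (by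
      intro p hp
      rcases p with _ | _ | p
      · exact absurd rfl hp
      · simp only [cns, Option.elim]; omega
      · simp only [cns, Option.elim]
        exact hS _ (hgS p)) h
  · intro h
    exact add_leaf (h := cns D (cns 0 g)) (v1 := none) (u := some none) (by simp) rfl h

theorem critM {S : Multiset ℕ} (hS : S ≠ 0) (hpos : ∀ y ∈ S, 0 < y) :
    ForciblyConnected (1 ::ₘ 1 ::ₘ S) ↔ Graphical (1 ::ₘ 1 ::ₘ S) ∧ ¬ Graphical S := by
  obtain ⟨k, g, hk, hg⟩ := exists_fn S
  have hgS : ∀ i, g i ∈ S := by
    intro i
    rw [← hg]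
    exact Multiset.mem_map_of_mem _ (Finset.mem_univ i)
  have hk0 : 0 < k := by
    rw [hk]
    exact Multiset.card_pos.mpr hS
  have e1 : (cns 1 (cns 1 g)) =
      fun v => (cns 0 (cns 0 g)) v + ee none v + ee (some none) v := by
    funext v
    rcases v with _ | _ | v <;> simp [cns, ee]
  have hc := crit (h := cns 0 (cns 0 g)) (a := none) (b := some none)
    (c := some (some ⟨0, hk0⟩)) (by simp) (by simp) (by simp) rfl rfl (by
      intro v ha hb
      rcases v with _ | _ | v
      · exact absurd rfl ha
      · exact absurd rfl hb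
      · exact hpos _ (hgS v))
  rw [← e1, gr_zero, gr_zero, ← graphical_iff g hg] at hc
  rw [fc_iff (cns 1 (cns 1 g)) (by simp only [map_cns, hg]),
    graphical_iff (cns 1 (cns 1 g)) (by simp only [map_cns, hg]), ← hc]
  refine and_congr_right ?_
  intro _
  push Not
  rfl

theorem domM {d : ℕ} {T : Multiset ℕ} (hT : Multiset.card T = d) (h : Graphical (d ::ₘ T)) :
    ForciblyConnected (d ::ₘ T) := by
  obtain ⟨k, g, hk, hg⟩ := exists_fn T
  have hm : Multiset.map (cns d g) (Finset.univ : Finset (Option (Fin k))).val = d ::ₘ T := by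
    rw [map_cns, hg]
  rw [fc_iff (cns d g) hm]
  refine ⟨(graphical_iff (cns d g) hm).mp h, ?_⟩
  intro G hG
  apply dom_of_deg (v := none)
  rw [hG none]
  simp [cns, hk, hT]

theorem degM {d : ℕ} {T : Multiset ℕ} (h : Graphical (d ::ₘ T)) : d ≤ Multiset.card T := by
  obtain ⟨k, g, hk, hg⟩ := exists_fn T
  have hm : Multiset.map (cns d g) (Finset.univ : Finset (Option (Fin k))).val = d ::ₘ T := by
    rw [map_cns, hg]
  obtain ⟨G, hG⟩ := (graphical_iff (cns d g) hm).mp h
  have h1 := deg_lt_card (G := G) none
  rw [hG none] at h1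
  simp only [cns, Option.elim, Nat.card_eq_fintype_card, Fintype.card_option,
    Fintype.card_fin] at h1
  omega

end Pool.Agent.H88.FC
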