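import Pool.Agent.H88.FC.Tail

/-!
A forcibly connected multiset with largest part D which is not in the image of the injection.
-/

namespace Pool.Agent.H88.FC

theorem graphical_nil : Graphical 0 := ⟨0, ⊥, by simp [Realizes]⟩

theorem leafM {D : ℕ} {S : Multiset ℕ} (h : Graphical (D ::ₘ S)) :
    Graphical ((D + 1) ::ₘ 1 ::ₘ S) := by
  obtain ⟨k, g, -, hg⟩ := exists_fn S
  have e1 : (cns (D + 1) (cns 1 g)) =
      fun v => (cns D (cns 0 g)) v + ee none v + ee (some none) v := by
    funext v
    rcases v with _ | _ | v <;> simp [cns, ee]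
  rw [← graphical_zero, Multiset.cons_swap 0 D,
    graphical_iff (cns D (cns 0 g)) (by simp only [map_cns, hg])] at h
  rw [graphical_iff (cns (D + 1) (cns 1 g)) (by simp only [map_cns, hg]), e1]
  exact add_leaf (h := cns D (cns 0 g)) (v1 := none) (u := some none) (by simp) rfl h

theorem star (d : ℕ) : Graphical (d ::ₘ Multiset.replicate d 1) := by
  induction d with
  | zero =>
    rw [Multiset.replicate_zero, graphical_zero]
    exact graphical_nil
  | succ d ih =>
    rw [Multiset.replicate_succ]
    exact leafM ih

theorem twos {D t : ℕ} (ht : 2 * t ≤ D) (j : ℕ) (hj : j ≤ t) :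
    Graphical ((D + t - j) ::ₘ (Multiset.replicate (2 * j) 2 +
      Multiset.replicate (D + t - 3 * j) 1)) := by
  induction j with
  | zero =>
    have h := star (D + t)
    simpa using h
  | succ j ih =>
    have h := ih (by omega)
    obtain ⟨k, hk⟩ : ∃ k, D + t - 3 * j = k + 3 := ⟨D + t - 3 * j - 3, by omega⟩
    obtain ⟨E, hE⟩ : ∃ E, D + t - j = E + 1 := ⟨D + t - j - 1, by omega⟩
    have e1 : D + t - (j + 1) = E := by omega
    have e2 : D + t - 3 * (j + 1) = k := by omega
    rw [e1, e2]
    rw [hE, hk] at h
    have h1 : (E + 1) ::ₘ (Multiset.replicate (2 * j) 2 + Multiset.replicate (k + 3) 1) =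
        (E + 1) ::ₘ 1 ::ₘ 1 ::ₘ 1 ::ₘ (Multiset.replicate (2 * j) 2 +
          Multiset.replicate k 1) := by
      congr 1
      rw [Multiset.replicate_add k 3 1]
      have e3 : Multiset.replicate 3 1 = (1 ::ₘ 1 ::ₘ 1 ::ₘ 0 : Multiset ℕ) := rfl
      rw [e3]
      ext a
      simp only [Multiset.count_cons, Multiset.count_add, Multiset.count_zero]
      omega
    rw [h1] at h
    have h2 := M1 (D := E) (x := 1) (by omega) (by
      intro y hy
      rw [Multiset.mem_add] at hy
      rcases hy with hy | hy
      · have := Multiset.eq_of_mem_replicate hy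
        omega
      · have := Multiset.eq_of_mem_replicate hy
        omega) h
    have h3 : E ::ₘ (Multiset.replicate (2 * (j + 1)) 2 + Multiset.replicate k 1) =
        E ::ₘ (1 + 1) ::ₘ 2 ::ₘ (Multiset.replicate (2 * j) 2 + Multiset.replicate k 1) := by
      rw [Multiset.cons_inj_right]
      have e4 : 2 * (j + 1) = 2 * j + 2 := by ring
      rw [e4, Multiset.replicate_add (2 * j) 2 2]
      have e3 : Multiset.replicate 2 2 = (2 ::ₘ 2 ::ₘ 0 : Multiset ℕ) := rfl
      have e5 : ∀ X Y : Multiset ℕ, X + (2 ::ₘ 2 ::ₘ 0) + Y = (1 + 1) ::ₘ 2 ::ₘ (X + Y) := by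
        intro X Y
        ext a
        simp only [Multiset.count_cons, Multiset.count_add, Multiset.count_zero]
        norm_num
        omega
      rw [e3, e5]
    rw [h3]
    exact h2

theorem exists_new {n D t : ℕ} (hn : n ≤ 3 * D) (ht1 : 1 ≤ t) (hnt : n = 2 * D + 2 * t) :
    ∃ m : Multiset ℕ, m.sum = n ∧ (∀ y ∈ m, 0 < y) ∧ D ∈ m ∧ (∀ y ∈ m, y ≤ D) ∧
      ForciblyConnected m ∧ ∀ m1, ¬ R1 D m1 m := by
  rcases Nat.lt_or_ge t 2 with h2 | h2
  · have ht : t = 1 := by omega
    subst ht
    obtain ⟨E, rfl⟩ : ∃ E, D = E + 2 := ⟨D - 2, by omega⟩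
    have hg : Graphical ((E + 2) ::ₘ 2 ::ₘ Multiset.replicate (E + 2) 1) := by
      have h := star (E + 2)
      rw [Multiset.replicate_succ, Multiset.cons_swap] at h
      have h3 := leafM h
      have h4 : (1 + 1) ::ₘ 1 ::ₘ (E + 2) ::ₘ Multiset.replicate (E + 1) 1 =
          (E + 2) ::ₘ 2 ::ₘ Multiset.replicate (E + 2) 1 := by
        rw [Multiset.replicate_succ 1 (E + 1)]
        ext a
        simp only [Multiset.count_cons]
        norm_num
        try omega
      rwa [h4] at h3
    refine ⟨(E + 2) ::ₘ 2 ::ₘ Multiset.replicate (E + 2) 1, ?_, ?_, ?_, ?_, ?_, ?_⟩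
    · simp only [Multiset.sum_cons, Multiset.sum_replicate, smul_eq_mul]
      omega
    · intro y hy
      simp only [Multiset.mem_cons] at hy
      rcases hy with rfl | rfl | hy
      · omega
      · omega
      · have := Multiset.eq_of_mem_replicate hy
        omega
    · simp
    · intro y hy
      simp only [Multiset.mem_cons] at hy
      rcases hy with rfl | rfl | hy
      · omega
      · omega
      · have := Multiset.eq_of_mem_replicate hy
        omega
    · have e1 : (E + 2) ::ₘ 2 ::ₘ Multiset.replicate (E + 2) 1 =
          1 ::ₘ 1 ::ₘ (E + 2) ::ₘ 2 ::ₘ Multiset.replicate E 1 := by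
        rw [Multiset.replicate_succ, Multiset.replicate_succ]
        ext a
        simp only [Multiset.count_cons]
        omega
      rw [e1] at hg ⊢
      rw [critM (Multiset.cons_ne_zero) (by
        intro y hy
        simp only [Multiset.mem_cons] at hy
        rcases hy with rfl | rfl | hy
        · omega
        · omega
        · have := Multiset.eq_of_mem_replicate hy
          omega)]
      refine ⟨hg, ?_⟩
      intro h
      have := degM h
      simp only [Multiset.card_cons, Multiset.card_replicate] at this
      omega
    · rintro m1 ⟨x, S, hx, hS, -, h⟩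
      rw [Multiset.cons_inj_right] at h
      have h3 : x + 1 ∈ 2 ::ₘ Multiset.replicate (E + 2) 1 := by
        rw [h]
        exact Multiset.mem_cons_self _ _
      have h4 : x + 1 = 2 := by
        rw [Multiset.mem_cons] at h3
        rcases h3 with h3 | h3
        · exact h3
        · have := Multiset.eq_of_mem_replicate h3
          omega
      rw [h4, Multiset.cons_inj_right] at h
      have h5 : 2 ∈ Multiset.replicate (E + 2) 1 := by
        rw [h]
        exact Multiset.mem_cons_self _ _
      have := Multiset.eq_of_mem_replicate h5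
      omega
  · have hg := twos (D := D) (t := t) (by omega) t (le_refl _)
    have e1 : D + t - t = D := by omega
    have e2 : D + t - 3 * t = D - 2 * t := by omega
    rw [e1, e2] at hg
    have hmem : ∀ y ∈ Multiset.replicate (2 * t) 2 + Multiset.replicate (D - 2 * t) 1,
        y = 2 ∨ y = 1 := by
      intro y hy
      rw [Multiset.mem_add] at hy
      rcases hy with hy | hy
      · exact Or.inl (Multiset.eq_of_mem_replicate hy)
      · exact Or.inr (Multiset.eq_of_mem_replicate hy)
    refine ⟨D ::ₘ (Multiset.replicate (2 * t) 2 + Multiset.replicate (D - 2 * t) 1),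
      ?_, ?_, ?_, ?_, ?_, ?_⟩
    · simp only [Multiset.sum_cons, Multiset.sum_add, Multiset.sum_replicate, smul_eq_mul]
      omega
    · intro y hy
      rw [Multiset.mem_cons] at hy
      rcases hy with rfl | hy
      · omega
      · rcases hmem y hy with rfl | rfl <;> omega
    · exact Multiset.mem_cons_self _ _
    · intro y hy
      rw [Multiset.mem_cons] at hy
      rcases hy with rfl | hy
      · omega
      · rcases hmem y hy with rfl | rfl <;> omega
    · apply domM _ hg
      simp only [Multiset.card_add, Multiset.card_replicate]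
      omega
    · rintro m1 ⟨x, S, hx, hS, -, h⟩
      rw [Multiset.cons_inj_right] at h
      have h3 : x + 1 ∈ Multiset.replicate (2 * t) 2 + Multiset.replicate (D - 2 * t) 1 := by
        rw [h]
        exact Multiset.mem_cons_self _ _
      have h4 : x = 1 := by
        rcases hmem _ h3 with h4 | h4 <;> omega
      subst h4
      have h5 := congrArg (Multiset.count 2) h
      have h6 : Multiset.count 2 S = 0 := by
        rw [Multiset.count_eq_zero]
        intro h7
        have := hS 2 h7
        omega
      rw [Multiset.count_add, Multiset.count_replicate_self, Multiset.count_cons_self,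
        Multiset.count_cons_self, h6] at h5
      omega

end Pool.Agent.H88.FC
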