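import Pool.Agent.H88.FC.Multi

/-!
The two injections on forcibly connected multisets with a large part.
-/

namespace Pool.Agent.H88.FC

theorem card_le_sum {T : Multiset ℕ} (hT : ∀ y ∈ T, 0 < y) : Multiset.card T ≤ T.sum := by
  induction T using Multiset.induction_on with
  | empty => simp
  | cons a T ih =>
    rw [Multiset.card_cons, Multiset.sum_cons]
    have h1 := ih (fun y hy => hT y (Multiset.mem_cons_of_mem hy))
    have h2 := hT a (Multiset.mem_cons_self a T)
    omega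

theorem count_one {T : Multiset ℕ} (hT : ∀ y ∈ T, 0 < y) :
    2 * Multiset.card T ≤ Multiset.count 1 T + T.sum := by
  induction T using Multiset.induction_on with
  | empty => simp
  | cons a T ih =>
    rw [Multiset.card_cons, Multiset.sum_cons, Multiset.count_cons]
    have h1 := ih (fun y hy => hT y (Multiset.mem_cons_of_mem hy))
    have h2 := hT a (Multiset.mem_cons_self a T)
    by_cases h3 : 1 = a
    · rw [if_pos h3]; omega
    · rw [if_neg h3]; omega

theorem exists_one {T : Multiset ℕ} (h : 1 ≤ Multiset.count 1 T) : ∃ S, T = 1 ::ₘ S := by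
  have h1 : (1 : ℕ) ∈ T := Multiset.count_pos.mp (by omega)
  exact Multiset.exists_cons_of_mem h1

theorem exists_two {T : Multiset ℕ} (h : 2 ≤ Multiset.count 1 T) : ∃ S, T = 1 ::ₘ 1 ::ₘ S := by
  obtain ⟨S, rfl⟩ := exists_one (T := T) (by omega)
  rw [Multiset.count_cons_self] at h
  obtain ⟨S', rfl⟩ := exists_one (T := S) (by omega)
  exact ⟨S', rfl⟩

theorem exists_max {T : Multiset ℕ} (h : T ≠ 0) : ∃ x S, T = x ::ₘ S ∧ ∀ y ∈ S, y ≤ x := by
  induction T using Multiset.induction_on with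
  | empty => exact absurd rfl h
  | cons a T ih =>
    by_cases hT : T = 0
    · subst hT
      exact ⟨a, 0, rfl, by simp⟩
    · obtain ⟨x, S, hS, hx⟩ := ih hT
      by_cases hax : a ≤ x
      · refine ⟨x, a ::ₘ S, ?_, ?_⟩
        · rw [hS, Multiset.cons_swap]
        · intro y hy
          rw [Multiset.mem_cons] at hy
          rcases hy with rfl | hy
          · exact hax
          · exact hx y hy
      · refine ⟨a, T, rfl, ?_⟩
        intro y hy
        rw [hS, Multiset.mem_cons] at hy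
        rcases hy with rfl | hy
        · omega
        · have := hx y hy
          omega

/-- the relation between a multiset and its image in the first injection -/
def R1 (D : ℕ) (m m' : Multiset ℕ) : Prop :=
  ∃ (x : ℕ) (S : Multiset ℕ), 1 ≤ x ∧ (∀ y ∈ S, y ≤ x) ∧
    m = (D + 1) ::ₘ x ::ₘ 1 ::ₘ 1 ::ₘ S ∧ m' = D ::ₘ (x + 1) ::ₘ 2 ::ₘ S

theorem R1_inj {D : ℕ} {m1 m2 m' : Multiset ℕ} (h1 : R1 D m1 m') (h2 : R1 D m2 m') :
    m1 = m2 := by
  obtain ⟨x, S, hx, hS, rfl, h3⟩ := h1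
  obtain ⟨x', S', hx', hS', rfl, h4⟩ := h2
  rw [h3, Multiset.cons_inj_right] at h4
  have key : ∀ {x x' : ℕ} {S S' : Multiset ℕ}, 1 ≤ x' → (∀ y ∈ S', y ≤ x') →
      (x + 1) ::ₘ 2 ::ₘ S = (x' + 1) ::ₘ 2 ::ₘ S' → x ≤ x' := by
    intro x x' S S' hx' hS' h
    have h5 : x + 1 ∈ (x' + 1) ::ₘ 2 ::ₘ S' := by
      rw [← h]
      exact Multiset.mem_cons_self _ _
    rw [Multiset.mem_cons, Multiset.mem_cons] at h5
    rcases h5 with h5 | h5 | h5
    · omega
    · omega
    · have := hS' _ h5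
      omega
  have h6 : x = x' := le_antisymm (key hx' hS' h4) (key hx hS h4.symm)
  subst h6
  rw [Multiset.cons_inj_right, Multiset.cons_inj_right] at h4
  rw [h4]

/-- the first move keeps forcible connectedness, two ones remaining -/
theorem fc_move {D x : ℕ} {S : Multiset ℕ} (hx1 : 1 ≤ x) (hx : x ≤ D)
    (hS : ∀ y ∈ S, y ≤ x) (hpos : ∀ y ∈ S, 0 < y)
    (h : ForciblyConnected ((D + 1) ::ₘ x ::ₘ 1 ::ₘ 1 ::ₘ 1 ::ₘ 1 ::ₘ S)) :
    ForciblyConnected (D ::ₘ (x + 1) ::ₘ 2 ::ₘ 1 ::ₘ 1 ::ₘ S) := by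
  have e1 : (D + 1) ::ₘ x ::ₘ 1 ::ₘ 1 ::ₘ 1 ::ₘ 1 ::ₘ S =
      1 ::ₘ 1 ::ₘ (D + 1) ::ₘ x ::ₘ 1 ::ₘ 1 ::ₘ S := by
    ext a
    simp only [Multiset.count_cons]
    omega
  have e2 : D ::ₘ (x + 1) ::ₘ 2 ::ₘ 1 ::ₘ 1 ::ₘ S =
      1 ::ₘ 1 ::ₘ D ::ₘ (x + 1) ::ₘ 2 ::ₘ S := by
    ext a
    simp only [Multiset.count_cons]
    omega
  have hg := h.1
  rw [e1, critM (Multiset.cons_ne_zero) (by
    intro y hy
    simp only [Multiset.mem_cons] at hy
    rcases hy with rfl | rfl | rfl | rfl | hy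
    · omega
    · omega
    · omega
    · omega
    · exact hpos y hy)] at h
  rw [e2, critM (Multiset.cons_ne_zero) (by
    intro y hy
    simp only [Multiset.mem_cons] at hy
    rcases hy with rfl | rfl | rfl | hy
    · omega
    · omega
    · omega
    · exact hpos y hy), ← e2]
  refine ⟨?_, ?_⟩
  · refine M1 hx ?_ hg
    intro y hy
    simp only [Multiset.mem_cons] at hy
    rcases hy with rfl | rfl | hy
    · omega
    · omega
    · have := hS y hy
      omega
  · intro h3
    apply h.2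
    refine M2 ?_ h3
    intro y hy
    have := hS y hy
    omega

/-- a forcibly connected multiset with largest part D + 1 is moved to one with largest part D -/
theorem move_exists {n D : ℕ} (hn : n ≤ 3 * D) {m : Multiset ℕ} (hsum : m.sum = n)
    (hpos : ∀ y ∈ m, 0 < y) (hmem : D + 1 ∈ m) (hmax : ∀ y ∈ m, y ≤ D + 1)
    (hfc : ForciblyConnected m) :
    ∃ m' : Multiset ℕ, R1 D m m' ∧ m'.sum = n ∧ (∀ y ∈ m', 0 < y) ∧ D ∈ m' ∧
      (∀ y ∈ m', y ≤ D) ∧ ForciblyConnected m' := by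
  obtain ⟨T, rfl⟩ := Multiset.exists_cons_of_mem hmem
  have hcard := degM hfc.1
  have hT0 : T ≠ 0 := by
    rintro rfl
    simp at hcard
  obtain ⟨x, T', rfl, hx⟩ := exists_max hT0
  rw [Multiset.card_cons] at hcard
  rw [Multiset.sum_cons, Multiset.sum_cons] at hsum
  have hposT' : ∀ y ∈ T', 0 < y := fun y hy =>
    hpos y (Multiset.mem_cons_of_mem (Multiset.mem_cons_of_mem hy))
  have hx1 : 0 < x := hpos x (by simp)
  have hc1 := count_one hposT'
  have hc2 := card_le_sum hposT'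
  have hc3 := Multiset.count_le_card 1 T'
  obtain ⟨S, rfl⟩ := exists_two (T := T') (by omega)
  rw [Multiset.count_cons_self, Multiset.count_cons_self, Multiset.card_cons,
    Multiset.card_cons] at hc3
  simp only [Multiset.card_cons, Multiset.sum_cons, Multiset.count_cons_self] at *
  have hxD : x + 1 ≤ D := by omega
  have hSx : ∀ y ∈ S, y ≤ x := fun y hy => hx y (by simp [hy])
  have hSpos : ∀ y ∈ S, 0 < y := fun y hy => hposT' y (by simp [hy])
  refine ⟨D ::ₘ (x + 1) ::ₘ 2 ::ₘ S, ⟨x, S, hx1, hSx, rfl, rfl⟩, ?_, ?_, ?_, ?_, ?_⟩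
  · simp only [Multiset.sum_cons]
    omega
  · intro y hy
    simp only [Multiset.mem_cons] at hy
    rcases hy with rfl | rfl | rfl | hy
    · omega
    · omega
    · omega
    · exact hSpos y hy
  · simp
  · intro y hy
    simp only [Multiset.mem_cons] at hy
    rcases hy with rfl | rfl | rfl | hy
    · omega
    · omega
    · omega
    · have := hSx y hy
      omega
  · by_cases hcase : Multiset.card S + 2 = D
    · apply domM
      · simp only [Multiset.card_cons]
        omega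
      · refine M1 (by omega) ?_ hfc.1
        intro y hy
        have := hSx y hy
        omega
    · obtain ⟨S', rfl⟩ := exists_two (T := S) (by omega)
      exact fc_move hx1 (by omega) (fun y hy => hSx y (by simp [hy]))
        (fun y hy => hSpos y (by simp [hy])) hfc

/-- the relation in the stability statement -/
def R2 (D : ℕ) (m m' : Multiset ℕ) : Prop :=
  ∃ T : Multiset ℕ, m = D ::ₘ T ∧ m' = (D + 1) ::ₘ 1 ::ₘ T

theorem R2_inj {D : ℕ} {m1 m2 m' : Multiset ℕ} (h1 : R2 D m1 m') (h2 : R2 D m2 m') :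
    m1 = m2 := by
  obtain ⟨T, rfl, h3⟩ := h1
  obtain ⟨T', rfl, h4⟩ := h2
  rw [h3, Multiset.cons_inj_right, Multiset.cons_inj_right] at h4
  rw [h4]

theorem R2_inj' {D : ℕ} {m m1 m2 : Multiset ℕ} (h1 : R2 D m m1) (h2 : R2 D m m2) :
    m1 = m2 := by
  obtain ⟨T, h3, rfl⟩ := h1
  obtain ⟨T', h4, rfl⟩ := h2
  rw [h3, Multiset.cons_inj_right] at h4
  rw [h4]

/-- adding a leaf at the largest vertex keeps and reflects forcible connectedness -/
theorem fc_leaf {D : ℕ} {S : Multiset ℕ} (hD : 0 < D) (hS : ∀ y ∈ S, y ≤ D + 1)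
    (hpos : ∀ y ∈ S, 0 < y) :
    ForciblyConnected ((D + 1) ::ₘ 1 ::ₘ 1 ::ₘ 1 ::ₘ S) ↔
      ForciblyConnected (D ::ₘ 1 ::ₘ 1 ::ₘ S) := by
  have e1 : (D + 1) ::ₘ 1 ::ₘ 1 ::ₘ 1 ::ₘ S = 1 ::ₘ 1 ::ₘ (D + 1) ::ₘ 1 ::ₘ S := by
    ext a
    simp only [Multiset.count_cons]
    omega
  have e2 : D ::ₘ 1 ::ₘ 1 ::ₘ S = 1 ::ₘ 1 ::ₘ D ::ₘ S := by
    ext a
    simp only [Multiset.count_cons]
    omega
  have h1 := critM (S := (D + 1) ::ₘ 1 ::ₘ S) (Multiset.cons_ne_zero) (by
    intro y hy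
    simp only [Multiset.mem_cons] at hy
    rcases hy with rfl | rfl | hy
    · omega
    · omega
    · exact hpos y hy)
  have h2 := critM (S := D ::ₘ S) (Multiset.cons_ne_zero) (by
    intro y hy
    simp only [Multiset.mem_cons] at hy
    rcases hy with rfl | hy
    · omega
    · exact hpos y hy)
  have h3 := M3 (D := D) (S := 1 ::ₘ 1 ::ₘ S) (by
    intro y hy
    simp only [Multiset.mem_cons] at hy
    rcases hy with rfl | rfl | hy
    · omega
    · omega
    · exact hS y hy)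
  have h4 := M3 (D := D) (S := S) hS
  rw [← e1, h4, h3] at h1
  rw [← e2] at h2
  rw [h1, h2]

theorem leaf_up {n D : ℕ} (hn : n ≤ 3 * D) (hD : 0 < D) {m : Multiset ℕ} (hsum : m.sum = n)
    (hpos : ∀ y ∈ m, 0 < y) (hmem : D ∈ m) (hmax : ∀ y ∈ m, y ≤ D)
    (hfc : ForciblyConnected m) :
    ∃ m' : Multiset ℕ, R2 D m m' ∧ m'.sum = n + 2 ∧ (∀ y ∈ m', 0 < y) ∧ D + 1 ∈ m' ∧
      (∀ y ∈ m', y ≤ D + 1) ∧ ForciblyConnected m' := by
  obtain ⟨T, rfl⟩ := Multiset.exists_cons_of_mem hmem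
  have hcard := degM hfc.1
  rw [Multiset.sum_cons] at hsum
  have hposT : ∀ y ∈ T, 0 < y := fun y hy => hpos y (Multiset.mem_cons_of_mem hy)
  have hT : ∀ y ∈ T, y ≤ D := fun y hy => hmax y (Multiset.mem_cons_of_mem hy)
  have hc1 := count_one hposT
  have hg : Graphical ((D + 1) ::ₘ 1 ::ₘ T) := (M3 (by
    intro y hy
    have := hT y hy
    omega)).mpr hfc.1
  refine ⟨(D + 1) ::ₘ 1 ::ₘ T, ⟨T, rfl, rfl⟩, ?_, ?_, ?_, ?_, ?_⟩
  · simp only [Multiset.sum_cons]
    omega
  · intro y hy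
    simp only [Multiset.mem_cons] at hy
    rcases hy with rfl | rfl | hy
    · omega
    · omega
    · exact hposT y hy
  · simp
  · intro y hy
    simp only [Multiset.mem_cons] at hy
    rcases hy with rfl | rfl | hy
    · omega
    · omega
    · have := hT y hy
      omega
  · by_cases hcase : Multiset.card T = D
    · apply domM
      · simp only [Multiset.card_cons]
        omega
      · exact hg
    · obtain ⟨S, rfl⟩ := exists_two (T := T) (by omega)
      rw [fc_leaf hD (fun y hy => by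
        have := hT y (by simp [hy])
        omega) (fun y hy => hposT y (by simp [hy]))]
      exact hfc

theorem leaf_down {n D : ℕ} (hn : n ≤ 3 * D) (hD : 0 < D) {m' : Multiset ℕ}
    (hsum : m'.sum = n + 2)
    (hpos : ∀ y ∈ m', 0 < y) (hmem : D + 1 ∈ m') (hmax : ∀ y ∈ m', y ≤ D + 1)
    (hfc : ForciblyConnected m') :
    ∃ m : Multiset ℕ, R2 D m m' ∧ m.sum = n ∧ (∀ y ∈ m, 0 < y) ∧ D ∈ m ∧
      (∀ y ∈ m, y ≤ D) ∧ ForciblyConnected m := by
  obtain ⟨T', rfl⟩ := Multiset.exists_cons_of_mem hmem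
  have hcard := degM hfc.1
  rw [Multiset.sum_cons] at hsum
  have hposT' : ∀ y ∈ T', 0 < y := fun y hy => hpos y (Multiset.mem_cons_of_mem hy)
  have hT' : ∀ y ∈ T', y ≤ D + 1 := fun y hy => hmax y (Multiset.mem_cons_of_mem hy)
  have hc1 := count_one hposT'
  obtain ⟨T, rfl⟩ := exists_one (T := T') (by omega)
  simp only [Multiset.card_cons, Multiset.sum_cons, Multiset.count_cons_self] at *
  have hposT : ∀ y ∈ T, 0 < y := fun y hy => hposT' y (Multiset.mem_cons_of_mem hy)
  have hg : Graphical (D ::ₘ T) := (M3 (fun y hy => hT' y (Multiset.mem_cons_of_mem hy))).mp hfc.1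
  have hTD : ∀ y ∈ T, y ≤ D := by
    intro y hy
    by_contra hcon
    have h1 : y = D + 1 := by
      have := hT' y (Multiset.mem_cons_of_mem hy)
      omega
    subst h1
    obtain ⟨T'', rfl⟩ := Multiset.exists_cons_of_mem hy
    rw [Multiset.cons_swap] at hg
    have h2 := degM hg
    simp only [Multiset.card_cons, Multiset.sum_cons] at *
    have h3 := card_le_sum (T := T'') (fun y hy => hposT y (Multiset.mem_cons_of_mem hy))
    omega
  refine ⟨D ::ₘ T, ⟨T, rfl, rfl⟩, ?_, ?_, ?_, ?_, ?_⟩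
  · simp only [Multiset.sum_cons]
    omega
  · intro y hy
    simp only [Multiset.mem_cons] at hy
    rcases hy with rfl | hy
    · exact hD
    · exact hposT y hy
  · simp
  · intro y hy
    simp only [Multiset.mem_cons] at hy
    rcases hy with rfl | hy
    · exact le_refl _
    · exact hTD y hy
  · have hcT := degM hg
    by_cases hcase : Multiset.card T = D
    · exact domM hcase hg
    · obtain ⟨S, rfl⟩ := exists_two (T := T) (by omega)
      rw [← fc_leaf hD (fun y hy => by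
        have := hTD y (by simp [hy])
        omega) (fun y hy => hposT y (by simp [hy]))]
      exact hfc

end Pool.Agent.H88.FC
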